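import Pool.Agent.H30.UI.Stubs

namespace Pool.Agent.H67.UI

open Finset Pool.Agent.H30.UI

/-- `t` distinct `k`-sets with union `E`, each of which meets another one -/
def Good {V : Type} [DecidableEq V] (k : ℕ) (E : Finset V) (t : ℕ) : Prop :=
  ∃ G ⊆ powersetCard k E, G.card = t ∧ G.biUnion id = E ∧
    ∀ A ∈ G, ∃ B ∈ G, B ≠ A ∧ (A ∩ B).Nonempty

lemma good_two {V : Type} [DecidableEq V] {k e : ℕ} {E : Finset V} (he : 1 ≤ e) (hek : e < k)
    (hE : E.card + e = 2 * k) : Good k E 2 := by
  obtain ⟨A, hA, hAc⟩ := exists_subset_card_eq (show k ≤ E.card by omega)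
  obtain ⟨C, hC, hCc⟩ := exists_subset_card_eq (show e ≤ A.card by omega)
  have hEA : (E \ A).card + k = E.card := by
    rw [card_sdiff_of_subset hA, hAc]
    omega
  have hdis : Disjoint (E \ A) C := by
    rw [Finset.disjoint_left]
    intro y hy hyC
    exact (mem_sdiff.1 hy).2 (hC hyC)
  have hBc : ((E \ A) ∪ C).card = k := by
    rw [card_union_of_disjoint hdis, hCc]
    omega
  have hne : A ≠ (E \ A) ∪ C := by
    intro h
    have h1 : (E \ A).Nonempty := by
      rw [← card_pos]
      omega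
    obtain ⟨y, hy⟩ := h1
    have h2 : y ∈ A := by
      rw [h]
      exact mem_union_left _ hy
    exact (mem_sdiff.1 hy).2 h2
  have hCne : C.Nonempty := by
    rw [← card_pos]
    omega
  have hint : (A ∩ ((E \ A) ∪ C)).Nonempty := by
    obtain ⟨y, hy⟩ := hCne
    exact ⟨y, mem_inter.2 ⟨hC hy, mem_union_right _ hy⟩⟩
  refine ⟨{A, (E \ A) ∪ C}, ?_, card_pair hne, ?_, ?_⟩
  · intro B hB
    rw [mem_insert, mem_singleton] at hB
    rw [mem_powersetCard]
    rcases hB with rfl | rfl
    · exact ⟨hA, hAc⟩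
    · exact ⟨union_subset sdiff_subset (hC.trans hA), hBc⟩
  · rw [biUnion_insert, singleton_biUnion, id, id]
    ext y
    simp only [mem_union, mem_sdiff]
    constructor
    · rintro (h | h | h)
      · exact hA h
      · exact h.1
      · exact hA (hC h)
    · intro h
      by_cases hy : y ∈ A
      · exact Or.inl hy
      · exact Or.inr (Or.inl ⟨h, hy⟩)
  · intro B hB
    rw [mem_insert, mem_singleton] at hB
    rcases hB with rfl | rfl
    · exact ⟨_, mem_insert_of_mem (mem_singleton_self _), hne.symm, hint⟩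
    · refine ⟨A, mem_insert_self _ _, hne, ?_⟩
      rwa [inter_comm]

lemma good_union {V : Type} [DecidableEq V] {k s t : ℕ} {E₁ E₂ : Finset V} (hk : 1 ≤ k)
    (hdis : Disjoint E₁ E₂) (h1 : Good k E₁ s) (h2 : Good k E₂ t) : Good k (E₁ ∪ E₂) (s + t) := by
  obtain ⟨G₁, g1, g2, g3, g4⟩ := h1
  obtain ⟨G₂, f1, f2, f3, f4⟩ := h2
  have hG : Disjoint G₁ G₂ := by
    rw [Finset.disjoint_left]
    intro A hA hA'
    have h3 := mem_powersetCard.1 (g1 hA)
    have h4 := mem_powersetCard.1 (f1 hA')
    have h5 : A.Nonempty := by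
      rw [← card_pos]
      omega
    obtain ⟨y, hy⟩ := h5
    exact (Finset.disjoint_left.1 hdis) (h3.1 hy) (h4.1 hy)
  refine ⟨G₁ ∪ G₂, ?_, ?_, ?_, ?_⟩
  · intro A hA
    rw [mem_powersetCard]
    rcases mem_union.1 hA with h | h
    · have := mem_powersetCard.1 (g1 h)
      exact ⟨this.1.trans subset_union_left, this.2⟩
    · have := mem_powersetCard.1 (f1 h)
      exact ⟨this.1.trans subset_union_right, this.2⟩
  · rw [card_union_of_disjoint hG, g2, f2]
  · rw [union_biUnion, g3, f3]
  · intro A hA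
    rcases mem_union.1 hA with h | h
    · obtain ⟨B, hB, hB2⟩ := g4 A h
      exact ⟨B, mem_union_left _ hB, hB2⟩
    · obtain ⟨B, hB, hB2⟩ := f4 A h
      exact ⟨B, mem_union_right _ hB, hB2⟩

lemma good_one {V : Type} [DecidableEq V] {k t : ℕ} {E₁ E : Finset V} (hk : 2 ≤ k)
    (hsub : E₁ ⊆ E) (hc : E.card + 1 = E₁.card + k) (hne : E₁.Nonempty) (h1 : Good k E₁ t) :
    Good k E (t + 1) := by
  obtain ⟨G, g1, g2, g3, g4⟩ := h1
  obtain ⟨y, hy⟩ := hne
  have hnot : y ∉ E \ E₁ := fun h => (mem_sdiff.1 h).2 hy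
  have hsd : (E \ E₁).card + E₁.card = E.card := by
    have := card_le_card hsub
    rw [card_sdiff_of_subset hsub]
    omega
  have hAc : (insert y (E \ E₁)).card = k := by
    rw [card_insert_of_notMem hnot]
    omega
  have hAG : insert y (E \ E₁) ∉ G := by
    intro h
    have h2 := (mem_powersetCard.1 (g1 h)).1
    have h3 : (E \ E₁).Nonempty := by
      rw [← card_pos]
      omega
    obtain ⟨z, hz⟩ := h3
    exact (mem_sdiff.1 hz).2 (h2 (mem_insert_of_mem hz))
  refine ⟨insert (insert y (E \ E₁)) G, ?_, ?_, ?_, ?_⟩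
  · intro A hA
    rw [mem_powersetCard]
    rcases mem_insert.1 hA with rfl | h
    · refine ⟨?_, hAc⟩
      intro z hz
      rcases mem_insert.1 hz with rfl | h
      · exact hsub hy
      · exact (mem_sdiff.1 h).1
    · have := mem_powersetCard.1 (g1 h)
      exact ⟨this.1.trans hsub, this.2⟩
  · rw [card_insert_of_notMem hAG, g2]
  · rw [biUnion_insert, g3, id]
    ext z
    simp only [mem_union, mem_insert, mem_sdiff]
    constructor
    · rintro ((rfl | h) | h)
      · exact hsub hy
      · exact h.1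
      · exact hsub h
    · intro h
      by_cases hz : z ∈ E₁
      · exact Or.inr hz
      · exact Or.inl (Or.inr ⟨h, hz⟩)
  · intro A hA
    rcases mem_insert.1 hA with rfl | h
    · have h2 : y ∈ G.biUnion id := by
        rw [g3]
        exact hy
      rw [mem_biUnion] at h2
      obtain ⟨B, hB, hyB⟩ := h2
      exact ⟨B, mem_insert_of_mem hB, fun h => hAG (h ▸ hB),
        ⟨y, mem_inter.2 ⟨mem_insert_self _ _, hyB⟩⟩⟩
    · obtain ⟨B, hB, hB2⟩ := g4 A h
      exact ⟨B, mem_insert_of_mem hB, hB2⟩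

lemma good {V : Type} [DecidableEq V] (k : ℕ) : ∀ (t e : ℕ) (E : Finset V), 2 ≤ t → t ≤ 2 * e →
    e < k → E.card + e = t * k → Good k E t := by
  intro t
  induction t using Nat.strong_induction_on with
  | _ t ih =>
    intro e E ht hte hek hE
    rcases Nat.lt_or_ge t 4 with h4 | h4
    · have h5 : t = 2 ∨ t = 3 := by omega
      rcases h5 with rfl | rfl
      · exact good_two (by omega) hek hE
      · obtain ⟨E₁, hE₁, hE₁c⟩ := exists_subset_card_eq (show 2 * k - (e - 1) ≤ E.card by omega)
        have h6 := ih 2 (by omega) (e - 1) E₁ le_rfl (by omega) (by omega) (by omega)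
        exact good_one (by omega) hE₁ (by omega) (by
          rw [← card_pos]
          omega) h6
    · have e1 : t * k = (t - 2) * k + 2 * k := by
        rw [← add_mul]
        congr 1
        omega
      obtain ⟨E₂, hE₂, hE₂c⟩ := exists_subset_card_eq (show 2 * k - 1 ≤ E.card by
        have : 2 * k ≤ (t - 2) * k := Nat.mul_le_mul_right _ (by omega)
        omega)
      have h6 : Good k (E \ E₂) (t - 2) := by
        apply ih (t - 2) (by omega) (e - 1) _ (by omega) (by omega) (by omega)
        rw [card_sdiff_of_subset hE₂]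
        have : 2 * k ≤ (t - 2) * k := Nat.mul_le_mul_right _ (by omega)
        omega
      have h7 : Good k E₂ 2 := good_two (e := 1) le_rfl (by omega) (by omega)
      have h8 := good_union (by omega) (disjoint_sdiff_self_left) h6 h7
      rw [sdiff_union_of_subset hE₂] at h8
      have h9 : t - 2 + 2 = t := by omega
      rwa [h9] at h8

theorem con3 : S_con3 := by
  intro V _ E k u j hu hE huj hjk
  obtain ⟨G, g1, g2, g3, g4⟩ := good k (u + 1) (j + 1) E (by omega) (by omega) hjk (by omega)
  refine ⟨G, g1, g2, fun U hU hUc => ?_⟩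
  -- the missing member
  obtain ⟨A, hA, hAU⟩ : ∃ A ∈ G, A ∉ U := by
    by_contra hc
    push Not at hc
    have := card_le_card (show G ⊆ U from hc)
    omega
  have hGU : insert A U = G := by
    apply eq_of_subset_of_card_le
    · intro B hB
      rcases mem_insert.1 hB with rfl | h
      · exact hA
      · exact hU h
    · rw [card_insert_of_notMem hAU, hUc, g2]
  obtain ⟨B, hB, hBA, hAB⟩ := g4 A hA
  have hBU : B ∈ U := by
    rw [← hGU] at hB
    rcases mem_insert.1 hB with h | h
    · exact absurd h hBA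
    · exact h
  have h1 : E = A ∪ U.biUnion id := by
    rw [← g3, ← hGU, biUnion_insert, id]
  have h2 := card_union_add_card_inter A (U.biUnion id)
  rw [← h1, (mem_powersetCard.1 (g1 hA)).2] at h2
  have h3 : 1 ≤ (A ∩ U.biUnion id).card := by
    rw [Nat.one_le_iff_ne_zero, ← Nat.pos_iff_ne_zero, card_pos]
    obtain ⟨y, hy⟩ := hAB
    rw [mem_inter] at hy
    exact ⟨y, mem_inter.2 ⟨hy.1, mem_biUnion.2 ⟨B, hBU, hy.2⟩⟩⟩
  omega

end Pool.Agent.H67.UI
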