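import Pool.Agent.H30.UI.Stubs

namespace Pool.Agent.H67.UI

open Finset Pool.Agent.H30.UI

/-- a lower bound for the size of a union of sets with small pairwise intersections -/
lemma union_lower {V : Type} [DecidableEq V] {k j : ℕ} (W : Finset (Finset V))
    (hW : ∀ A ∈ W, A.card = k) (hj : ∀ A ∈ W, ∀ B ∈ W, A ≠ B → (A ∩ B).card ≤ j) :
    W.card * k ≤ (W.biUnion id).card + W.card ^ 2 * j := by
  induction W using Finset.induction_on with
  | empty => simp
  | insert A W hA ih =>
    have ih := ih (fun B hB => hW B (mem_insert_of_mem hB))
      (fun B hB C hC => hj B (mem_insert_of_mem hB) C (mem_insert_of_mem hC))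
    rw [biUnion_insert, card_insert_of_notMem hA, id]
    have h1 := card_union_add_card_inter A (W.biUnion id)
    have h2 : (A ∩ W.biUnion id).card ≤ W.card * j := by
      rw [inter_biUnion]
      refine card_biUnion_le_card_mul _ _ _ fun B hB => ?_
      exact hj A (mem_insert_self _ _) B (mem_insert_of_mem hB) (fun h => hA (h ▸ hB))
    rw [hW A (mem_insert_self _ _)] at h1
    nlinarith

/-- the union of `t` members has at most `t k` points -/
lemma union_upper {V : Type} [DecidableEq V] {k : ℕ} (W : Finset (Finset V))
    (hW : ∀ A ∈ W, A.card = k) : (W.biUnion id).card ≤ W.card * k :=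
  card_biUnion_le_card_mul _ _ _ fun A hA => (hW A hA).le

theorem pack : S_pack := by
  classical
  intro V _ E G k u hG hk hu h2
  have hGk : ∀ A ∈ G, A.card = k := fun A hA => (hG A hA).2
  refine ⟨?_, ?_⟩
  · intro h
    by_contra hc
    push Not at hc
    obtain ⟨U, hU, hUc⟩ := exists_subset_card_eq hc
    have h3 := h2 U hU hUc
    have h4 := union_upper U fun A hA => hGk A (hU hA)
    rw [hUc] at h4
    have : (u + 1) * k = u * k + k := by ring
    omega
  · intro h hj
    obtain ⟨j, hjn⟩ : ∃ j, E.card + 1 + j = (u + 1) * k := ⟨(u + 1) * k - (E.card + 1), by omega⟩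
    have hj' : (u + 1) * k - (E.card + 1) = j := by omega
    rw [hj'] at hj ⊢
    have e1 : (u + 1) * k = u * k + k := by ring
    constructor
    · by_contra hc
      push Not at hc
      -- pairwise intersections
      have hpair : ∀ A ∈ G, ∀ B ∈ G, A ≠ B → (A ∩ B).card ≤ j := by
        intro A hA B hB hAB
        have hsub : ({A, B} : Finset (Finset V)) ⊆ G := by
          intro x hx
          rw [mem_insert, mem_singleton] at hx
          rcases hx with rfl | rfl
          · exact hA
          · exact hB
        obtain ⟨U, hU1, hU2, hU3⟩ := exists_subsuperset_card_eq hsub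
          (by rw [card_pair hAB]; exact hu) (show u ≤ G.card by omega)
        have h3 := h2 U hU2 hU3
        have h4 : (U.biUnion id) = (A ∪ B) ∪ ((U \ {A, B}).biUnion id) := by
          conv_lhs => rw [← union_sdiff_of_subset hU1]
          rw [union_biUnion, biUnion_insert, singleton_biUnion, id, id]
        have h5 := card_union_le (A ∪ B) ((U \ {A, B}).biUnion id)
        have h6 := union_upper (U \ {A, B}) fun C hC => hGk C (hU2 (mem_sdiff.1 hC).1)
        rw [card_sdiff_of_subset hU1, card_pair hAB, hU3] at h6
        have h7 := card_union_add_card_inter A B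
        rw [hGk A hA, hGk B hB] at h7
        rw [← h4] at h5
        have h8 : (u - 2) * k + 2 * k = u * k := by
          rw [← add_mul]
          congr 1
          omega
        omega
      obtain ⟨W, hW, hWc⟩ := exists_subset_card_eq (show u + 2 ≤ G.card by omega)
      have h3 := union_lower W (fun A hA => hGk A (hW hA))
        (fun A hA B hB => hpair A (hW hA) B (hW hB))
      have h4 : (W.biUnion id).card ≤ E.card := card_le_card (by
        intro y hy
        rw [mem_biUnion] at hy
        obtain ⟨A, hA, hyA⟩ := hy
        exact (hG A (hW hA)).1 hyA)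
      rw [hWc] at h3
      have e2 : (u + 2) * k = u * k + 2 * k := by ring
      omega
    · intro hju
      by_contra hc
      push Not at hc
      obtain ⟨W, hW, hWc⟩ := exists_subset_card_eq (show u + 1 ≤ G.card by omega)
      set Z := W.biUnion id with hZ
      have hZE : Z.card ≤ E.card := card_le_card (by
        intro y hy
        rw [hZ, mem_biUnion] at hy
        obtain ⟨A, hA, hyA⟩ := hy
        exact (hG A (hW hA)).1 hyA)
      set d : V → ℕ := fun y => (W.filter (fun A => y ∈ A)).card with hd
      -- the points of a member in another one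
      have hs : ∀ A ∈ W, (u + 1) * k ≤ Z.card + j + (A.filter (fun y => 2 ≤ d y)).card := by
        intro A hA
        have h3 := h2 (W.erase A) ((erase_subset _ _).trans hW) (by
          rw [card_erase_of_mem hA, hWc]
          rfl)
        have h4 : Z = A ∪ (W.erase A).biUnion id := by
          rw [hZ]
          conv_lhs => rw [← insert_erase hA]
          rw [biUnion_insert, id]
        have h5 := card_union_add_card_inter A ((W.erase A).biUnion id)
        rw [← h4, hGk A (hW hA)] at h5
        have h6 : A ∩ (W.erase A).biUnion id ⊆ A.filter (fun y => 2 ≤ d y) := by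
          intro y hy
          rw [mem_inter, mem_biUnion] at hy
          obtain ⟨hyA, B, hB, hyB⟩ := hy
          rw [mem_filter]
          refine ⟨hyA, ?_⟩
          have h7 : ({A, B} : Finset (Finset V)) ⊆ W.filter (fun A => y ∈ A) := by
            intro C hC
            rw [mem_insert, mem_singleton] at hC
            rw [mem_filter]
            rcases hC with rfl | rfl
            · exact ⟨hA, hyA⟩
            · exact ⟨mem_of_mem_erase hB, hyB⟩
          have h8 := card_le_card h7
          rw [card_pair (fun h => (ne_of_mem_erase hB) h.symm)] at h8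
          exact h8
        have h7 := card_le_card h6
        omega
      have hsum1 : ∑ A ∈ W, (A.filter (fun y => 2 ≤ d y)).card + 2 * Z.card ≤
          2 * ∑ A ∈ W, A.card := by
        have h3 : ∀ A ∈ W, A.card = ∑ y ∈ Z, if y ∈ A then 1 else 0 := by
          intro A hA
          rw [← card_filter]
          congr 1
          ext y
          rw [mem_filter, hZ, mem_biUnion]
          exact ⟨fun h => ⟨⟨A, hA, h⟩, h⟩, fun h => h.2⟩
        have h4 : ∀ A ∈ W, (A.filter (fun y => 2 ≤ d y)).card =
            ∑ y ∈ Z, if y ∈ A ∧ 2 ≤ d y then 1 else 0 := by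
          intro A hA
          rw [← card_filter]
          congr 1
          ext y
          rw [mem_filter, mem_filter, hZ, mem_biUnion]
          exact ⟨fun h => ⟨⟨A, hA, h.1⟩, h⟩, fun h => h.2⟩
        rw [sum_congr rfl h3, sum_congr rfl h4, sum_comm, sum_comm (s := W), mul_sum,
          card_eq_sum_ones, mul_sum, ← sum_add_distrib]
        refine sum_le_sum fun y hy => ?_
        have h5 : ∑ A ∈ W, (if y ∈ A then 1 else 0) = d y := by
          rw [← card_filter]
        have h6 : 1 ≤ d y := by
          rw [hZ, mem_biUnion] at hy
          obtain ⟨A, hA, hyA⟩ := hy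
          exact card_pos.2 ⟨A, mem_filter.2 ⟨hA, hyA⟩⟩
        rw [h5]
        by_cases h7 : 2 ≤ d y
        · simp only [h7, and_true]
          rw [h5]
          omega
        · simp only [h7, and_false, if_false, sum_const_zero]
          omega
      have hsum2 : ∑ A ∈ W, A.card = (u + 1) * k := by
        rw [sum_congr rfl fun A hA => hGk A (hW hA), sum_const, hWc, smul_eq_mul]
      have hsum3 := sum_le_sum hs
      rw [sum_const, hWc, smul_eq_mul, sum_add_distrib, sum_const, hWc, smul_eq_mul] at hsum3
      rw [hsum2] at hsum1
      -- `D = (u+1)k - |Z|`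
      obtain ⟨D, hD⟩ : ∃ D, Z.card + D = (u + 1) * k := ⟨(u + 1) * k - Z.card, by omega⟩
      rw [← hD] at hsum1 hsum3
      have h9 : (u + 1) * D ≤ (u + 1) * j + 2 * D := by nlinarith
      have h10 : j + 1 ≤ D := by omega
      obtain ⟨u', rfl⟩ : ∃ u', u = u' + 1 := ⟨u - 1, by omega⟩
      nlinarith

end Pool.Agent.H67.UI
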